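import Pool.Agent.V11258.BG.Myc

namespace Pool.Agent.V11258.BG

open Emb

/-- A condition: a countable family of perfect sets together with a countable set of points. -/
structure Cond where
  /-- perfect sets -/
  ψ : ℕ → Emb
  /-- points -/
  Y : Set C
  cnt : Y.Countable

/-- The order. -/
structure Le (q p : Cond) : Prop where
  A : ∀ i n, ∃ j, ∃ ρ : Emb, Near n ρ ∧ ∀ z, (q.ψ j).f z = (p.ψ i).f (ρ.f z)
  B : ∀ j, ∃ i, Set.range (q.ψ j).f ⊆ Set.range (p.ψ i).f
  sub : p.Y ⊆ q.Y
  new : ∀ x ∈ q.Y, x ∈ p.Y ∨ ∃ i, x ∈ Set.range (p.ψ i).f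

theorem Le.refl (p : Cond) : Le p p :=
  ⟨fun i n => ⟨i, Emb.id, near_id n, fun _ => rfl⟩, fun j => ⟨j, subset_rfl⟩, subset_rfl,
    fun _ h => Or.inl h⟩

theorem Le.trans {r q p : Cond} (h : Le r q) (h' : Le q p) : Le r p := by
  refine ⟨fun i n => ?_, fun j => ?_, h'.sub.trans h.sub, fun x hx => ?_⟩
  · obtain ⟨j, ρ, h1, h2⟩ := h'.A i n
    obtain ⟨k, ρ', h3, h4⟩ := h.A j n
    exact ⟨k, ρ.comp ρ', h1.comp h3, fun z => by rw [h4, h2]; rfl⟩
  · obtain ⟨i, hi⟩ := h.B j
    obtain ⟨k, hk⟩ := h'.B i
    exact ⟨k, hi.trans hk⟩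
  · rcases h.new x hx with h1 | ⟨i, hi⟩
    · exact h'.new x h1
    · obtain ⟨k, hk⟩ := h'.B i
      exact Or.inr ⟨k, hk hi⟩

theorem le_of_le {p : ℕ → Cond} (h : ∀ k, Le (p (k+1)) (p k)) {m k : ℕ} (hmk : m ≤ k) :
    Le (p k) (p m) := by
  induction k, hmk using Nat.le_induction with
  | base => exact Le.refl _
  | succ n hn ih => exact (h n).trans ih

/-- Fusion through the levels. -/
theorem fuse {p : ℕ → Cond} (h : ∀ k, Le (p (k+1)) (p k)) (k i n : ℕ) :
    ∃ e : Emb, (∃ ρ : Emb, Near n ρ ∧ ∀ z, e.f z = ((p k).ψ i).f (ρ.f z)) ∧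
      ∀ m, ∃ i', Set.range e.f ⊆ Set.range ((p m).ψ i').f := by
  choose! J R hR1 hR2 using fun k => (h k).A
  -- the path of indices
  let I : ℕ → ℕ := fun j => Nat.rec i (fun j a => J (k+j) a (n+j)) j
  let ρ : ℕ → Emb := fun j => R (k+j) (I j) (n+j)
  have hN : ∀ j, Near (n+j) (ρ j) := fun j => hR1 _ _ _
  have hN' : ∀ j, Near j (ρ j) := fun j => (hN j).mono (by omega)
  have hstep : ∀ j z, ((p (k+(j+1))).ψ (I (j+1))).f z = ((p (k+j)).ψ (I j)).f ((ρ j).f z) := by
    intro j z
    exact hR2 (k+j) (I j) (n+j) z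
  have hcomp : ∀ j z, ((p (k+j)).ψ (I j)).f z = ((p k).ψ i).f ((pr ρ 0 j).f z) := by
    intro j
    induction j with
    | zero => intro z; rfl
    | succ j ih =>
      intro z
      rw [hstep, ih, pr_succ', Nat.zero_add]
  refine ⟨((p k).ψ i).comp (tl ρ hN' 0), ⟨tl ρ hN' 0, ?_, fun _ => rfl⟩, ?_⟩
  · exact tl_near ρ hN' fun j _ => (hN j).mono (by omega)
  · have key : ∀ j, Set.range (((p k).ψ i).comp (tl ρ hN' 0)).f ⊆
        Set.range ((p (k+j)).ψ (I j)).f := by
      rintro j _ ⟨z, rfl⟩
      refine ⟨(tl ρ hN' (0+j)).f z, ?_⟩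
      rw [hcomp, comp_f, tl_pr ρ hN' 0 j]
    intro m
    by_cases hm : k ≤ m
    · obtain ⟨j, rfl⟩ := Nat.exists_eq_add_of_le hm
      exact ⟨_, key j⟩
    · obtain ⟨i', hi'⟩ := (le_of_le h (le_of_lt (not_le.mp hm))).B i
      exact ⟨i', (key 0).trans hi'⟩

theorem lower_bound {p : ℕ → Cond} (h : ∀ k, Le (p (k+1)) (p k)) : ∃ q, ∀ k, Le q (p k) := by
  choose e he1 he2 using fuse h
  let ψ : ℕ → Emb := fun l => e (Nat.unpair l).1 (Nat.unpair (Nat.unpair l).2).1
    (Nat.unpair (Nat.unpair l).2).2
  refine ⟨⟨ψ, ⋃ k, (p k).Y, Set.countable_iUnion fun k => (p k).cnt⟩, fun k => ?_⟩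
  refine ⟨fun i n => ?_, fun j => ?_, Set.subset_iUnion (fun k => (p k).Y) k, fun x hx => ?_⟩
  · obtain ⟨ρ, h1, h2⟩ := he1 k i n
    refine ⟨Nat.pair k (Nat.pair i n), ρ, h1, fun z => ?_⟩
    show (ψ _).f z = _
    simp only [ψ, Nat.unpair_pair]
    exact h2 z
  · exact he2 _ _ _ k
  · obtain ⟨m, hm⟩ := Set.mem_iUnion.mp hx
    by_cases hmk : m ≤ k
    · exact Or.inl ((le_of_le h hmk).sub hm)
    · exact (le_of_le h (le_of_lt (not_le.mp hmk))).new x hm

/-- Meeting `ℵ₁` many dense sets in a σ-closed order. -/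
theorem generic {P : Type} (le : P → P → Prop) (hrefl : ∀ p, le p p)
    (htrans : ∀ r q p, le r q → le q p → le r p)
    (hlb : ∀ p : ℕ → P, (∀ k, le (p (k+1)) (p k)) → ∃ q, ∀ k, le q (p k))
    {I : Type} (r : I → I → Prop) [IsWellOrder I r] (hcount : ∀ i, {j | r j i}.Countable)
    (D : I → P → Prop) (hD : ∀ i p, ∃ q, le q p ∧ D i q) [Nonempty P] :
    ∃ G : I → P, (∀ i, D i (G i)) ∧ ∀ j i, r j i → le (G i) (G j) := by
  classical
  have wf : WellFounded r := IsWellFounded.wf
  let F : ∀ i : I, (∀ j, r j i → P) → P := fun i g =>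
    if h : ∃ q, (∀ j (hj : r j i), le q (g j hj)) ∧ D i q then h.choose else Classical.arbitrary P
  let G : I → P := wf.fix F
  have hG : ∀ i, G i = F i (fun j _ => G j) := fun i => wf.fix_eq F i
  have main : ∀ i, (∀ j, r j i → le (G i) (G j)) ∧ D i (G i) := by
    intro i
    induction i using wf.induction with
    | _ i ih =>
      have hex : ∃ q, (∀ j (_ : r j i), le q (G j)) ∧ D i q := by
        -- a lower bound of all previous
        have hlow : ∃ q, ∀ j, r j i → le q (G j) := by
          by_cases hne : {j | r j i}.Nonempty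
          · obtain ⟨b, hb⟩ := (hcount i).exists_eq_range hne
            have hbi : ∀ n, r (b n) i := fun n => by
              have : b n ∈ {j | r j i} := by rw [hb]; exact ⟨n, rfl⟩
              exact this
            -- running maximum
            let c : ℕ → I := fun n => Nat.rec (b 0) (fun n x => if r x (b (n+1)) then b (n+1) else x) n
            have hc0 : c 0 = b 0 := rfl
            have hcs : ∀ n, c (n+1) = if r (c n) (b (n+1)) then b (n+1) else c n := fun n => rfl
            have hci : ∀ n, r (c n) i := by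
              intro n
              induction n with
              | zero => exact hbi 0
              | succ n ihn =>
                rw [hcs]; split_ifs
                · exact hbi _
                · exact ihn
            have hmono : ∀ n, le (G (c (n+1))) (G (c n)) := by
              intro n
              rw [hcs]; split_ifs with h
              · exact (ih (b (n+1)) (hbi _)).1 _ h
              · exact hrefl _
            have hbc : ∀ n, le (G (c n)) (G (b n)) := by
              intro n
              cases n with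
              | zero => exact hrefl _
              | succ n =>
                rw [hcs]; split_ifs with h
                · exact hrefl _
                · rcases (trichotomous_of r (c n) (b (n+1))) with h1 | h1 | h1
                  · exact absurd h1 h
                  · rw [h1]; exact hrefl _
                  · exact (ih (c n) (hci n)).1 _ h1
            obtain ⟨q, hq⟩ := hlb (fun n => G (c n)) hmono
            refine ⟨q, fun j hj => ?_⟩
            have : j ∈ {j | r j i} := hj
            rw [hb] at this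
            obtain ⟨n, rfl⟩ := this
            exact htrans _ _ _ (hq n) (hbc n)
          · refine ⟨Classical.arbitrary P, fun j hj => absurd ⟨j, hj⟩ hne⟩
        obtain ⟨q, hq⟩ := hlow
        obtain ⟨q', h1, h2⟩ := hD i q
        exact ⟨q', fun j hj => htrans _ _ _ h1 (hq j hj), h2⟩
      have hGi : G i = hex.choose := by
        rw [hG i]
        show (if h : ∃ q, (∀ j (hj : r j i), le q (G j)) ∧ D i q then h.choose
          else Classical.arbitrary P) = _
        rw [dif_pos hex]
      rw [hGi]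
      exact hex.choose_spec
  exact ⟨G, fun i => (main i).2, fun j i h => (main i).1 j h⟩

end Pool.Agent.V11258.BG
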