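import Pool.Agent.V11258.BG.Cond

namespace Pool.Agent.V11258.BG

open Emb Topology Filter

/-- Baire group. -/
abbrev Z := ℕ → ℤ

/-- Inclusion of the Cantor space. -/
def ι (x : C) : Z := fun i => if x i then 1 else 0

theorem ι_inj : Function.Injective ι := by
  intro x y h
  funext i
  have := congrFun h i
  simp only [ι] at this
  cases hx : x i <;> cases hy : y i <;> simp_all

theorem ι_cont : Continuous ι := by
  refine continuous_pi fun i => ?_
  exact (continuous_of_discreteTopology (f := fun b : Bool => if b then (1:ℤ) else 0)).comp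
    (continuous_apply i)

/-- The group generated by the points and all points of the perfect sets. -/
def grp (Y : Set C) (ψ : ℕ → Emb) : AddSubgroup Z :=
  AddSubgroup.closure (ι '' Y ∪ Set.range (fun s : ℕ × C => ι ((ψ s.1).f s.2)))

theorem mem_grp_of_mem {Y : Set C} {ψ : ℕ → Emb} {y : C} (h : y ∈ Y) : ι y ∈ grp Y ψ :=
  AddSubgroup.subset_closure (Or.inl ⟨y, h, rfl⟩)

theorem mem_grp_of_range {Y : Set C} {ψ : ℕ → Emb} (l : ℕ) (z : C) : ι ((ψ l).f z) ∈ grp Y ψ :=
  AddSubgroup.subset_closure (Or.inr ⟨(l, z), rfl⟩)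

theorem closure_range_repr {J : Type} (g : J → Z) {x : Z}
    (h : x ∈ AddSubgroup.closure (Set.range g)) :
    ∃ a : J →₀ ℤ, x = Finsupp.linearCombination ℤ g a := by
  have : AddSubgroup.closure (Set.range g) ≤
      (LinearMap.range (Finsupp.linearCombination ℤ g)).toAddSubgroup := by
    rw [AddSubgroup.closure_le]
    rintro _ ⟨j, rfl⟩
    exact ⟨Finsupp.single j 1, by simp⟩
  obtain ⟨a, ha⟩ := this h
  exact ⟨a, ha.symm⟩

theorem grp_repr {Y : Set C} {ψ : ℕ → Emb} {x : Z} (h : x ∈ grp Y ψ) :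
    ∃ c ∈ AddSubgroup.closure (ι '' Y), ∃ a : (ℕ × C) →₀ ℤ,
      x = c + ∑ s ∈ a.support, a s • ι ((ψ s.1).f s.2) := by
  rw [grp, AddSubgroup.closure_union, AddSubgroup.mem_sup] at h
  obtain ⟨c, hc, y, hy, rfl⟩ := h
  obtain ⟨a, rfl⟩ := closure_range_repr _ hy
  exact ⟨c, hc, a, rfl⟩

theorem exists_enum {Y : Set C} (hY : Y.Countable) :
    ∃ c : ℕ → Z, (∀ j, c j ∈ AddSubgroup.closure (ι '' Y)) ∧
      ∀ x ∈ AddSubgroup.closure (ι '' Y), ∃ j, c j = x := by
  have : ((AddSubgroup.closure (ι '' Y) : AddSubgroup Z) : Set Z).Countable := by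
    have hr : ι '' Y = Set.range (fun y : Y => ι y) := by
      ext x; simp
    have := hY.to_subtype
    refine (Set.countable_range (Finsupp.linearCombination ℤ (fun y : Y => ι y))).mono ?_
    intro x hx
    rw [hr] at hx
    obtain ⟨a, rfl⟩ := closure_range_repr _ hx
    exact ⟨a, rfl⟩
  obtain ⟨c, hc⟩ := this.exists_eq_range ⟨0, AddSubgroup.zero_mem _⟩
  refine ⟨c, fun j => ?_, fun x hx => ?_⟩
  · have : c j ∈ ((AddSubgroup.closure (ι '' Y) : AddSubgroup Z) : Set Z) := by
      rw [hc]; exact ⟨j, rfl⟩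
    exact this
  · have : x ∈ ((AddSubgroup.closure (ι '' Y) : AddSubgroup Z) : Set Z) := hx
    rw [hc] at this
    exact this

/-- One step of the fusion. -/
theorem stage (H : AddSubgroup Z) (g : ℕ → Emb) (hg : ∀ l z, ι ((g l).f z) ∈ H)
    (c : ℕ → Z) (hcH : ∀ j, c j ∈ H) (B : ℕ → Set Z) (hB : ∀ k, MeasurableSet (B k))
    (hω : ∀ F : Finset Z, (F : Set Z) ⊆ H → ∃ k, (F : Set Z) ⊆ B k) (n : ℕ) :
    ∃ k, ∃ ρ : ℕ → Emb, (∀ l, Near n (ρ l)) ∧ (∀ l, n ≤ l → ρ l = Emb.id) ∧
      ∀ j < n, ∀ a : (Fin n × (Fin n → Bool)) → ℤ, (∀ κ, |a κ| ≤ n) →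
        ∀ z : (Fin n × (Fin n → Bool)) → C,
          c j + ∑ κ, a κ • ι ((g κ.1).f ((ρ κ.1).f (cat n κ.2 (z κ)))) ∈ B k := by
  classical
  let K := Fin n × (Fin n → Bool)
  let word : ℕ × (K → ℤ) → (K → C) → Z := fun w y =>
    c w.1 + ∑ κ : K, w.2 κ • ι ((g κ.1).f (cat n κ.2 (y κ)))
  have hword : ∀ w, Continuous (word w) := by
    intro w
    refine continuous_const.add (continuous_finsetSum _ fun κ _ => ?_)
    have hc : Continuous fun y : K → C => ι ((g κ.1).f (cat n κ.2 (y κ))) := ι_cont.comp ((g κ.1).continuous.comp ((catE n κ.2).continuous.comp (continuous_apply κ)))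
    exact hc.const_smul (w.2 κ)
  let W : Finset (ℕ × (K → ℤ)) :=
    (Finset.range n) ×ˢ (Fintype.piFinset fun _ : K => Finset.Icc (-(n:ℤ)) n)
  let B' : ℕ → Set (K → C) := fun k => ⋂ w ∈ W, word w ⁻¹' B k
  have hB' : ∀ k, BaireMeasurableSet (B' k) := by
    intro k
    refine BaireMeasurableSet.biInter (Finset.countable_toSet W) fun w _ => ?_
    borelize (K → C)
    exact (((hword w).measurable) (hB k)).baireMeasurableSet
  have hcov : ∀ y, ∃ k, y ∈ B' k := by
    intro y
    obtain ⟨k, hk⟩ := hω (W.image fun w => word w y) (by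
      intro x hx
      rw [Finset.mem_coe, Finset.mem_image] at hx
      obtain ⟨w, _, rfl⟩ := hx
      refine H.add_mem (hcH _) (H.sum_mem fun κ _ => H.zsmul_mem (hg _ _) _))
    refine ⟨k, ?_⟩
    simp only [B', Set.mem_iInter, Set.mem_preimage]
    intro w hw
    exact hk (by
      rw [Finset.mem_coe, Finset.mem_image]
      exact ⟨w, hw, rfl⟩)
  obtain ⟨k, η, hη⟩ := cover_step B' hB' hcov
  refine ⟨k, fun l => if h : l < n then node n (fun σ => η (⟨l, h⟩, σ)) else Emb.id, ?_, ?_, ?_⟩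
  · intro l
    by_cases h : l < n
    · simp only [h, dite_true]; exact near_node n _
    · simp only [h, dite_false]; exact near_id n
  · intro l hl
    simp [not_lt.mpr hl]
  · intro j hj a ha z
    have h1 := hη z
    simp only [B', Set.mem_iInter, Set.mem_preimage] at h1
    have h2 := h1 (j, a) (by
      simp only [W, Finset.mem_product, Finset.mem_range, Fintype.mem_piFinset, Finset.mem_Icc]
      exact ⟨hj, fun κ => abs_le.mp (ha κ)⟩)
    have h3 : word (j, a) (pm η z) = c j + ∑ κ : K, a κ • ι ((g κ.1).f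
        (((fun l => if h : l < n then node n (fun σ => η (⟨l, h⟩, σ)) else Emb.id) κ.1).f
          (cat n κ.2 (z κ)))) := by
      simp only [word]
      congr 1
      refine Finset.sum_congr rfl fun κ _ => ?_
      have : (κ.1 : ℕ) < n := κ.1.2
      simp only [this, dite_true, node_cat]
      rfl
    rw [← h3]
    exact h2

theorem decide_good (p : Cond) (U : ℕ → ℕ → Set Z) (hU : ∀ n k, MeasurableSet (U n k))
    (hω : ∀ n, ∀ F : Finset Z, (F : Set Z) ⊆ grp p.Y p.ψ → ∃ k, (F : Set Z) ⊆ U n k) :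
    ∃ q, Le q p ∧ q.Y = p.Y ∧ ∃ f : ℕ → ℕ, ∀ x ∈ grp q.Y q.ψ, ∀ᶠ n in atTop, x ∈ U n (f n) := by
  classical
  obtain ⟨c, hc1, hc2⟩ := exists_enum p.cnt
  let H := grp p.Y p.ψ
  have hcH : ∀ j, c j ∈ H := by
    intro j
    have : AddSubgroup.closure (ι '' p.Y) ≤ H := AddSubgroup.closure_mono Set.subset_union_left
    exact this (hc1 j)
  let i : ℕ → ℕ := fun l => (Nat.unpair l).1
  let m : ℕ → ℕ := fun l => (Nat.unpair l).2
  have st : ∀ (n : ℕ) (θ : ℕ → Emb), ∃ k, ∃ ρ : ℕ → Emb, (∀ l, Near n (ρ l)) ∧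
      (∀ l, n ≤ l → ρ l = Emb.id) ∧
      ∀ j < n, ∀ a : (Fin n × (Fin n → Bool)) → ℤ, (∀ κ, |a κ| ≤ n) →
        ∀ z : (Fin n × (Fin n → Bool)) → C,
          c j + ∑ κ, a κ • ι (((p.ψ (i κ.1)).comp (θ κ.1)).f ((ρ κ.1).f (cat n κ.2 (z κ)))) ∈ U n k :=
    fun n θ => stage H (fun l => (p.ψ (i l)).comp (θ l)) (fun l z => mem_grp_of_range _ _) c hcH
      (U n) (hU n) (hω n) n
  choose k ρ h1 h2 h3 using st
  let Θ : ℕ → ℕ → Emb := fun n => Nat.rec (fun _ => Emb.id)
    (fun n θ => fun l => (θ l).comp (ρ n θ l)) n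
  let R : ℕ → ℕ → Emb := fun l n => ρ n (Θ n) l
  have hR : ∀ l n, Near n (R l n) := fun l n => h1 n (Θ n) l
  have hRm : ∀ l n, Near (m l) (R l n) := by
    intro l n
    by_cases h : n ≤ l
    · have : R l n = Emb.id := h2 n (Θ n) l h
      rw [this]; exact near_id _
    · have : m l ≤ l := Nat.unpair_right_le l
      exact (hR l n).mono (by omega)
  have hΘ : ∀ n l x, (Θ n l).f x = (pr (R l) 0 n).f x := by
    intro n
    induction n with
    | zero => intro l x; rfl
    | succ n ih =>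
      intro l x
      rw [pr_succ', ← ih, Nat.zero_add]
      rfl
  let T : ℕ → ℕ → Emb := fun l n => tl (R l) (hR l) n
  let ψ' : ℕ → Emb := fun l => (p.ψ (i l)).comp (T l 0)
  have hT : ∀ l n z, (T l 0).f z = (Θ n l).f ((R l n).f ((T l (n+1)).f z)) := by
    intro l n z
    have e1 : (T l 0).f z = (pr (R l) 0 n).f ((T l (0+n)).f z) := tl_pr (R l) (hR l) 0 n z
    have e2 : (T l n).f z = (R l n).f ((T l (n+1)).f z) := tl_eq (R l) (hR l) n z
    rw [e1, Nat.zero_add, e2, hΘ]
  have hTn : ∀ l n, Near (n+1) (T l (n+1)) := fun l n =>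
    tl_near (R l) (hR l) fun j hj => (hR l j).mono hj
  refine ⟨⟨ψ', p.Y, p.cnt⟩, ⟨fun i' n => ?_, fun l => ?_, subset_rfl, fun x hx => Or.inl hx⟩, rfl,
    fun n => k n (Θ n), ?_⟩
  · refine ⟨Nat.pair i' n, T (Nat.pair i' n) 0, ?_, fun z => ?_⟩
    · have : m (Nat.pair i' n) = n := by simp [m]
      conv => lhs; rw [← this]
      exact tl_near _ _ fun j _ => hRm _ j
    · show (p.ψ (i (Nat.pair i' n))).f _ = _
      have : i (Nat.pair i' n) = i' := by simp [i]
      rw [this]
  · refine ⟨i l, ?_⟩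
    rintro _ ⟨z, rfl⟩
    exact ⟨_, rfl⟩
  · intro x hx
    obtain ⟨c0, hc0, a, rfl⟩ := grp_repr hx
    obtain ⟨j0, rfl⟩ := hc2 c0 hc0
    -- bounds
    have hsep : ∀ᶠ n in atTop, ∀ s ∈ a.support, ∀ t ∈ a.support,
        s.1 = t.1 → res n s.2 = res n t.2 → s = t := by
      rw [Filter.eventually_all_finset]
      intro s _
      rw [Filter.eventually_all_finset]
      intro t _
      by_cases hst : s.2 = t.2
      · exact Eventually.of_forall fun n e _ => Prod.ext e hst
      · have : ∃ d, s.2 d ≠ t.2 d := by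
          by_contra hcon; push Not at hcon; exact hst (funext hcon)
        obtain ⟨d, hd⟩ := this
        filter_upwards [eventually_gt_atTop d] with n hn _ e
        exact absurd (res_eq_iff.mp e d hn) hd
    have hbd : ∀ᶠ n : ℕ in atTop, ∀ s ∈ a.support, s.1 < n ∧ |a s| ≤ n := by
      rw [Filter.eventually_all_finset]
      intro s _
      filter_upwards [eventually_gt_atTop s.1, eventually_ge_atTop (a s).natAbs] with n h1 h2
      refine ⟨h1, ?_⟩
      rw [Int.abs_eq_natAbs]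
      exact_mod_cast h2
    filter_upwards [hsep, hbd, eventually_gt_atTop j0] with n hs hb hj
    -- the projection of the support to the index set
    let K := Fin n × (Fin n → Bool)
    let π : ∀ s : ℕ × C, s ∈ a.support → K := fun s h => (⟨s.1, (hb s h).1⟩, res n s.2)
    have hπ : ∀ s hs' t ht', π s hs' = π t ht' → s = t := by
      intro s hs' t ht' e
      have e1 : s.1 = t.1 := congrArg (fun κ : K => (κ.1 : ℕ)) e
      have e2 : res n s.2 = res n t.2 := congrArg (fun κ : K => κ.2) e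
      exact hs s hs' t ht' e1 e2
    let A : K → ℤ := fun κ => if h : ∃ s, ∃ hs : s ∈ a.support, π s hs = κ then a h.choose else 0
    let zz : K → C := fun κ => if h : ∃ s, ∃ hs : s ∈ a.support, π s hs = κ then
      sh n ((T κ.1 (n+1)).f h.choose.2) else fun _ => false
    have hch : ∀ s (hs' : s ∈ a.support) (h : ∃ t, ∃ ht : t ∈ a.support, π t ht = π s hs'),
        h.choose = s := by
      intro s hs' h
      obtain ⟨h5, h6⟩ := h.choose_spec
      exact hπ _ h5 _ hs' h6
    have hAs : ∀ s hs', A (π s hs') = a s := by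
      intro s hs'
      have h : ∃ t, ∃ ht : t ∈ a.support, π t ht = π s hs' := ⟨s, hs', rfl⟩
      simp only [A]
      rw [dif_pos h, hch s hs' h]
    have hzs : ∀ s hs', zz (π s hs') = sh n ((T s.1 (n+1)).f s.2) := by
      intro s hs'
      have h : ∃ t, ∃ ht : t ∈ a.support, π t ht = π s hs' := ⟨s, hs', rfl⟩
      simp only [zz]
      rw [dif_pos h, hch s hs' h]
    have hAb : ∀ κ, |A κ| ≤ n := by
      intro κ
      by_cases h : ∃ s, ∃ hs : s ∈ a.support, π s hs = κ
      · obtain ⟨s, hs', rfl⟩ := h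
        rw [hAs s hs']; exact (hb s hs').2
      · simp only [A]; rw [dif_neg h]; simp
    have hmem := h3 n (Θ n) j0 hj A hAb zz
    have hsum : ∑ κ : K, A κ • ι (((p.ψ (i κ.1)).comp (Θ n κ.1)).f ((ρ n (Θ n) κ.1).f
          (cat n κ.2 (zz κ)))) = ∑ s ∈ a.support, a s • ι ((ψ' s.1).f s.2) := by
      symm
      rw [← Finset.sum_attach]
      have hinj : ∀ s ∈ a.support.attach, ∀ t ∈ a.support.attach,
          π s.1 s.2 = π t.1 t.2 → s = t := fun s _ t _ e => Subtype.ext (hπ _ s.2 _ t.2 e)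
      rw [← Finset.sum_subset (Finset.subset_univ (a.support.attach.image fun s => π s.1 s.2)),
        Finset.sum_image hinj]
      · refine Finset.sum_congr rfl fun s _ => ?_
        rw [hAs s.1 s.2, hzs s.1 s.2]
        congr 2
        show (p.ψ (i s.1.1)).f ((T s.1.1 0).f s.1.2) = (p.ψ (i s.1.1)).f ((Θ n s.1.1).f
          ((R s.1.1 n).f (cat n (res n s.1.2) (sh n ((T s.1.1 (n+1)).f s.1.2)))))
        rw [hT s.1.1 n]
        congr 3
        have : res n s.1.2 = res n ((T s.1.1 (n+1)).f s.1.2) :=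
          res_eq_iff.mpr (((hTn s.1.1 n s.1.2).mono (Nat.le_succ n)).symm)
        rw [this, cat_res_sh]
      · intro κ _ hκ
        have : ¬ ∃ s, ∃ hs : s ∈ a.support, π s hs = κ := by
          rintro ⟨s, hs', rfl⟩
          exact hκ (Finset.mem_image.mpr ⟨⟨s, hs'⟩, Finset.mem_attach _ _, rfl⟩)
        simp only [A]
        rw [dif_neg this, zero_smul]
    rw [hsum] at hmem
    exact hmem

end Pool.Agent.V11258.BG
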