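import Mathlib

namespace Pool.Agent.V11258.BG

/-- Cantor space. -/
abbrev C := ℕ → Bool

/-- Agreement of the first `n` coordinates. -/
def Agr (n : ℕ) (x y : C) : Prop := ∀ i < n, x i = y i

theorem Agr.refl (n : ℕ) (x : C) : Agr n x x := fun _ _ => rfl
theorem Agr.symm {n : ℕ} {x y : C} (h : Agr n x y) : Agr n y x := fun i hi => (h i hi).symm
theorem Agr.trans {n : ℕ} {x y z : C} (h : Agr n x y) (h' : Agr n y z) : Agr n x z :=
  fun i hi => (h i hi).trans (h' i hi)
theorem Agr.mono {m n : ℕ} {x y : C} (h : Agr n x y) (hm : m ≤ n) : Agr m x y :=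
  fun i hi => h i (lt_of_lt_of_le hi hm)

theorem isOpen_agr (n : ℕ) (x : C) : IsOpen {y : C | Agr n x y} := by
  have : {y : C | Agr n x y} = ⋂ i ∈ Finset.range n, {y : C | x i = y i} := by
    ext y; simp [Agr]
  rw [this]
  refine isOpen_biInter_finset fun i _ => ?_
  have h : Continuous fun y : C => y i := continuous_apply i
  have : {y : C | x i = y i} = (fun y : C => y i) ⁻¹' {x i} := by
    ext y; simp [eq_comm]
  rw [this]
  exact (isOpen_discrete _).preimage h

theorem exists_agr_subset {U : Set C} (hU : IsOpen U) {x : C} (hx : x ∈ U) :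
    ∃ n, ∀ y, Agr n x y → y ∈ U := by
  obtain ⟨I, u, hu, hs⟩ := isOpen_pi_iff.mp hU x hx
  refine ⟨I.sup id + 1, fun y hy => hs ?_⟩
  intro i hi
  have : i < I.sup id + 1 := Nat.lt_succ_of_le (Finset.le_sup (f := id) hi)
  rw [← hy i this]
  exact (hu i hi).2

theorem exists_agr_subset_pi {K : Type} [Finite K] {U : Set (K → C)} (hU : IsOpen U)
    {x : K → C} (hx : x ∈ U) : ∃ n, ∀ y : K → C, (∀ a, Agr n (x a) (y a)) → y ∈ U := by
  classical
  obtain ⟨I, u, hu, hs⟩ := isOpen_pi_iff.mp hU x hx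
  have : ∀ a : K, ∃ n, a ∈ I → ∀ y, Agr n (x a) y → y ∈ u a := by
    intro a
    by_cases ha : a ∈ I
    · obtain ⟨n, hn⟩ := exists_agr_subset (hu a ha).1 (hu a ha).2
      exact ⟨n, fun _ => hn⟩
    · exact ⟨0, fun h => absurd h ha⟩
  choose n hn using this
  have := Fintype.ofFinite K
  refine ⟨Finset.univ.sup n, fun y hy => hs ?_⟩
  intro a ha
  exact hn a ha (y a) ((hy a).mono (Finset.le_sup (Finset.mem_univ a)))

/-- Injective maps of Cantor space into itself which do not expand distances. -/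
structure Emb where
  /-- the map -/
  f : C → C
  inj : Function.Injective f
  lip : ∀ n x y, Agr n x y → Agr n (f x) (f y)

namespace Emb

/-- The identity. -/
def id : Emb := ⟨fun x => x, fun _ _ h => h, fun _ _ _ h => h⟩

/-- Composition. -/
def comp (g h : Emb) : Emb :=
  ⟨fun x => g.f (h.f x), fun _ _ e => h.inj (g.inj e), fun n _ _ e => g.lip n _ _ (h.lip n _ _ e)⟩

@[simp] theorem id_f (x : C) : id.f x = x := rfl
@[simp] theorem comp_f (g h : Emb) (x : C) : (g.comp h).f x = g.f (h.f x) := rfl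

theorem continuous (g : Emb) : Continuous g.f := by
  refine continuous_pi fun i => ?_
  rw [continuous_discrete_rng]
  intro b
  rw [isOpen_iff_mem_nhds]
  intro x hx
  refine Filter.mem_of_superset ((isOpen_agr (i+1) x).mem_nhds (Agr.refl _ _)) ?_
  intro y hy
  have := g.lip (i+1) x y hy i (Nat.lt_succ_self i)
  simp only [Set.mem_preimage, Set.mem_singleton_iff] at hx ⊢
  rw [← this]; exact hx

/-- `g` moves no point in the first `n` coordinates. -/
def Near (n : ℕ) (g : Emb) : Prop := ∀ z, Agr n (g.f z) z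

theorem near_id (n : ℕ) : Near n id := fun z => Agr.refl n z

theorem Near.mono {m n : ℕ} {g : Emb} (h : Near n g) (hm : m ≤ n) : Near m g :=
  fun z => (h z).mono hm

theorem Near.comp {n : ℕ} {g h : Emb} (hg : Near n g) (hh : Near n h) : Near n (g.comp h) :=
  fun z => (hg _).trans (hh z)

/-- `ρ_j ∘ ⋯ ∘ ρ_{j+n-1}` -/
def pr (ρ : ℕ → Emb) : ℕ → ℕ → Emb
  | _, 0 => id
  | j, n+1 => (ρ j).comp (pr ρ (j+1) n)

theorem pr_succ' (ρ : ℕ → Emb) (n : ℕ) : ∀ j x, (pr ρ j (n+1)).f x = (pr ρ j n).f ((ρ (j+n)).f x) := by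
  induction n with
  | zero => intro j x; simp [pr]
  | succ n ih =>
    intro j x
    have : (pr ρ j (n+2)).f x = (ρ j).f ((pr ρ (j+1) (n+1)).f x) := rfl
    rw [this, ih (j+1) x]
    have h2 : (pr ρ j (n+1)).f ((ρ (j+(n+1))).f x) = (ρ j).f ((pr ρ (j+1) n).f ((ρ (j+(n+1))).f x)) := rfl
    rw [h2]
    congr 3
    congr 1
    omega

theorem pr_near {ρ : ℕ → Emb} {N : ℕ} (n : ℕ) : ∀ j, (∀ i, j ≤ i → Near N (ρ i)) → Near N (pr ρ j n) := by
  induction n with
  | zero => intro j _; exact near_id N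
  | succ n ih =>
    intro j h
    exact (h j le_rfl).comp (ih (j+1) fun i hi => h i (by omega))

theorem pr_stable {ρ : ℕ → Emb} (h : ∀ j, Near j (ρ j)) (j k : ℕ) :
    ∀ n, k + 1 ≤ n → ∀ x, (pr ρ j n).f x k = (pr ρ j (k+1)).f x k := by
  intro n hn
  induction n, hn using Nat.le_induction with
  | base => intro x; rfl
  | succ n hn ih =>
    intro x
    rw [pr_succ', ih]
    -- ρ (j+n) x agrees with x up to j+n ≥ k+1
    have h1 : Agr (k+1) ((ρ (j+n)).f x) x := (h (j+n) x).mono (by omega)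
    exact (pr ρ j (k+1)).lip _ _ _ h1 k (Nat.lt_succ_self k)

/-- The limit `ρ_j ∘ ρ_{j+1} ∘ ⋯` -/
def tlf (ρ : ℕ → Emb) (j : ℕ) (z : C) : C := fun k => (pr ρ j (k+1)).f z k

theorem tlf_agr {ρ : ℕ → Emb} (h : ∀ j, Near j (ρ j)) (j n : ℕ) (z : C) :
    Agr n (tlf ρ j z) ((pr ρ j n).f z) := by
  intro i hi
  exact (pr_stable h j i n hi z).symm

theorem tlf_eq {ρ : ℕ → Emb} (h : ∀ j, Near j (ρ j)) (j : ℕ) (z : C) :
    tlf ρ j z = (ρ j).f (tlf ρ (j+1) z) := by
  funext k
  have h1 : Agr (k+1) (tlf ρ (j+1) z) ((pr ρ (j+1) (k+1)).f z) := tlf_agr h (j+1) (k+1) z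
  have h2 := (ρ j).lip _ _ _ h1 k (Nat.lt_succ_self k)
  rw [h2]
  have h3 : (ρ j).f ((pr ρ (j+1) (k+1)).f z) = (pr ρ j (k+2)).f z := rfl
  rw [h3, pr_stable h j k (k+2) (by omega)]
  rfl

theorem tlf_pr {ρ : ℕ → Emb} (h : ∀ j, Near j (ρ j)) (n : ℕ) : ∀ (j : ℕ) (z : C),
    tlf ρ j z = (pr ρ j n).f (tlf ρ (j+n) z) := by
  induction n with
  | zero => intro j z; rfl
  | succ n ih =>
    intro j z
    rw [tlf_eq h j z, ih (j+1) z]
    have : j + 1 + n = j + (n+1) := by omega
    rw [this]; rfl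

theorem tlf_near {ρ : ℕ → Emb} {N j : ℕ} (hN : ∀ i, j ≤ i → Near N (ρ i)) (z : C) :
    Agr N (tlf ρ j z) z := by
  intro i hi
  exact pr_near (i+1) j hN z i hi

/-- The fusion of a sequence. -/
def tl (ρ : ℕ → Emb) (h : ∀ j, Near j (ρ j)) (j : ℕ) : Emb where
  f := tlf ρ j
  inj := by
    intro x y e
    funext d
    have hx := tlf_pr h (d+1) j x
    have hy := tlf_pr h (d+1) j y
    rw [hx, hy] at e
    have e2 := (pr ρ j (d+1)).inj e
    have hN : ∀ i, j + (d+1) ≤ i → Near (d+1) (ρ i) := fun i hi => (h i).mono (by omega)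
    have a1 := tlf_near hN x d (Nat.lt_succ_self d)
    have a2 := tlf_near hN y d (Nat.lt_succ_self d)
    rw [← a1, ← a2, e2]
  lip := by
    intro n x y e i hi
    exact (pr ρ j (i+1)).lip n x y e i hi

theorem tl_eq (ρ : ℕ → Emb) (h : ∀ j, Near j (ρ j)) (j : ℕ) (z : C) :
    (tl ρ h j).f z = (ρ j).f ((tl ρ h (j+1)).f z) := tlf_eq h j z

theorem tl_pr (ρ : ℕ → Emb) (h : ∀ j, Near j (ρ j)) (j n : ℕ) (z : C) :
    (tl ρ h j).f z = (pr ρ j n).f ((tl ρ h (j+n)).f z) := tlf_pr h n j z

theorem tl_near (ρ : ℕ → Emb) (h : ∀ j, Near j (ρ j)) {N j : ℕ}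
    (hN : ∀ i, j ≤ i → Near N (ρ i)) : Near N (tl ρ h j) := fun z => tlf_near hN z

end Emb

/-- Prefix a finite string. -/
def cat (n : ℕ) (σ : Fin n → Bool) (y : C) : C := fun i => if h : i < n then σ ⟨i, h⟩ else y (i - n)

/-- First `n` coordinates. -/
def res (n : ℕ) (z : C) : Fin n → Bool := fun i => z i

/-- Shift by `n`. -/
def sh (n : ℕ) (z : C) : C := fun i => z (i + n)

theorem cat_res_sh (n : ℕ) (z : C) : cat n (res n z) (sh n z) = z := by
  funext i
  by_cases h : i < n
  · simp [cat, res, h]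
  · simp [cat, sh, h, Nat.sub_add_cancel (not_lt.mp h)]

@[simp] theorem res_cat (n : ℕ) (σ : Fin n → Bool) (y : C) : res n (cat n σ y) = σ := by
  funext i; simp [res, cat]

@[simp] theorem sh_cat (n : ℕ) (σ : Fin n → Bool) (y : C) : sh n (cat n σ y) = y := by
  funext i; simp [sh, cat]

theorem res_eq_iff {n : ℕ} {x y : C} : res n x = res n y ↔ Agr n x y := by
  constructor
  · intro h i hi; exact congrFun h ⟨i, hi⟩
  · intro h; funext i; exact h i i.2

theorem continuous_res (n : ℕ) : Continuous (res n) :=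
  continuous_pi fun i => continuous_apply (i : ℕ)

theorem continuous_sh (n : ℕ) : Continuous (sh n) :=
  continuous_pi fun i => continuous_apply (i + n)

namespace Emb

/-- prefixing as an element of `Emb`. -/
def catE (n : ℕ) (σ : Fin n → Bool) : Emb where
  f := cat n σ
  inj := by
    intro x y e
    have := congrArg (sh n) e
    simpa using this
  lip := by
    intro k x y e i hi
    by_cases h : i < n
    · simp [cat, h]
    · simp only [cat, h, dite_false]
      exact e _ (by omega)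

theorem isOpenMap_catE (n : ℕ) (σ : Fin n → Bool) : IsOpenMap (catE n σ).f := by
  intro U hU
  have : (catE n σ).f '' U = (res n) ⁻¹' {σ} ∩ (sh n) ⁻¹' U := by
    ext w
    constructor
    · rintro ⟨y, hy, rfl⟩
      refine ⟨?_, ?_⟩
      · show res n (cat n σ y) = σ; simp
      · show sh n (cat n σ y) ∈ U; simpa using hy
    · rintro ⟨h1, h2⟩
      refine ⟨sh n w, h2, ?_⟩
      have h1' : res n w = σ := h1
      show cat n σ (sh n w) = w
      rw [← h1']; exact cat_res_sh n w
  rw [this]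
  exact ((isOpen_discrete _).preimage (continuous_res n)).inter (hU.preimage (continuous_sh n))

/-- Apply `η σ` below each node `σ` of length `n`. -/
def node (n : ℕ) (η : (Fin n → Bool) → Emb) : Emb where
  f := fun z => cat n (res n z) ((η (res n z)).f (sh n z))
  inj := by
    intro x y e
    have e1 : res n x = res n y := by
      have := congrArg (res n) e
      simpa using this
    have e2 : (η (res n x)).f (sh n x) = (η (res n y)).f (sh n y) := by
      have := congrArg (sh n) e
      simpa using this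
    rw [← e1] at e2
    have e3 := (η (res n x)).inj e2
    rw [← cat_res_sh n x, ← cat_res_sh n y, e1, e3]
  lip := by
    intro k x y e i hi
    by_cases h : i < n
    · simp only [cat, h, dite_true]
      exact e i hi
    · have e1 : res n x = res n y := res_eq_iff.mpr (e.mono (by omega))
      simp only [cat, h, dite_false]
      rw [e1]
      refine (η (res n y)).lip (k - n) _ _ ?_ _ (by omega)
      intro l hl
      exact e _ (by omega)

theorem near_node (n : ℕ) (η : (Fin n → Bool) → Emb) : Near n (node n η) := by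
  intro z i hi
  show cat n (res n z) ((η (res n z)).f (sh n z)) i = z i
  simp [cat, hi, res]

@[simp] theorem node_cat (n : ℕ) (η : (Fin n → Bool) → Emb) (σ : Fin n → Bool) (y : C) :
    (node n η).f (cat n σ y) = cat n σ ((η σ).f y) := by
  show cat n (res n (cat n σ y)) ((η (res n (cat n σ y))).f (sh n (cat n σ y))) = _
  simp

theorem isOpenMap_comp {g h : Emb} (hg : IsOpenMap g.f) (hh : IsOpenMap h.f) :
    IsOpenMap (g.comp h).f := hg.comp hh

theorem isOpenMap_node (n : ℕ) (η : (Fin n → Bool) → Emb) (h : ∀ σ, IsOpenMap (η σ).f) :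
    IsOpenMap (node n η).f := by
  intro U hU
  have : (node n η).f '' U = ⋃ σ : Fin n → Bool,
      ((catE n σ).comp (η σ)).f '' ((catE n σ).f ⁻¹' U) := by
    ext w
    simp only [Set.mem_iUnion, Set.mem_image, Set.mem_preimage]
    constructor
    · rintro ⟨z, hz, rfl⟩
      refine ⟨res n z, sh n z, ?_, rfl⟩
      show cat n (res n z) (sh n z) ∈ U
      rw [cat_res_sh]; exact hz
    · rintro ⟨σ, y, hy, rfl⟩
      exact ⟨cat n σ y, hy, by rw [node_cat]; rfl⟩
  rw [this]
  refine isOpen_iUnion fun σ => ?_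
  exact isOpenMap_comp (isOpenMap_catE n σ) (h σ) _ (hU.preimage (catE n σ).continuous)

/-- Product map. -/
def pm {K : Type} (η : K → Emb) (z : K → C) : K → C := fun a => (η a).f (z a)

theorem continuous_pm {K : Type} (η : K → Emb) : Continuous (pm η) :=
  continuous_pi fun a => (η a).continuous.comp (continuous_apply a)

theorem isOpenMap_pm {K : Type} [Finite K] (η : K → Emb) (h : ∀ a, IsOpenMap (η a).f) :
    IsOpenMap (pm η) :=
  IsOpenMap.piMap (f := fun a => (η a).f) h (by simp [Filter.cofinite_eq_bot])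

end Emb

end Pool.Agent.V11258.BG
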