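import Pool.Agent.V11258.BG.Decide

namespace Pool.Agent.V11258.BG

open Emb Topology Filter Cardinal

/-- Adding points of the perfect sets. -/
def addPts (p : Cond) (S : Set C) (hS : S.Countable) : Cond := ⟨p.ψ, p.Y ∪ S, p.cnt.union hS⟩

theorem addPts_le (p : Cond) (S : Set C) (hS : S.Countable)
    (h : ∀ x ∈ S, ∃ i, x ∈ Set.range (p.ψ i).f) : Le (addPts p S hS) p :=
  ⟨fun i n => ⟨i, Emb.id, near_id n, fun _ => rfl⟩, fun j => ⟨j, subset_rfl⟩,
    Set.subset_union_left, fun x hx => hx.elim Or.inl fun h' => Or.inr (h x h')⟩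

instance : Uncountable C := by
  rw [← Cardinal.aleph0_lt_mk_iff]
  simpa using Cardinal.cantor ℵ₀

theorem exists_new (p : Cond) (e : ℕ → C) : ∃ y, (∃ i, y ∈ Set.range (p.ψ i).f) ∧ y ∉ Set.range e := by
  by_contra hcon
  push Not at hcon
  have h1 : Set.range (p.ψ 0).f ⊆ Set.range e := fun y hy => hcon y ⟨0, hy⟩
  have h2 : (Set.range (p.ψ 0).f).Countable := (Set.countable_range e).mono h1
  have h3 : Countable C := by
    have : Countable (Set.range (p.ψ 0).f) := h2.to_subtype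
    exact Countable.of_equiv _ (Equiv.ofInjective _ (p.ψ 0).inj).symm
  exact not_countable (α := C) h3

theorem dense_step (U : ℕ → ℕ → Set Z) (hU : ∀ n k, MeasurableSet (U n k)) (e : ℕ → C) (p : Cond) :
    ∃ q, Le q p ∧ (∃ y ∈ q.Y, y ∉ Set.range e) ∧
      ((∃ n, ∃ F : Finset Z, (F : Set Z) ⊆ AddSubgroup.closure (ι '' q.Y) ∧
          ∀ k, ¬ (F : Set Z) ⊆ U n k) ∨
        ∃ f : ℕ → ℕ, ∀ x ∈ grp q.Y q.ψ, ∀ᶠ n in atTop, x ∈ U n (f n)) := by
  classical
  obtain ⟨y, hy1, hy2⟩ := exists_new p e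
  let p' := addPts p {y} (Set.countable_singleton y)
  have hp' : Le p' p := addPts_le p _ _ (by rintro x rfl; exact hy1)
  have hyp' : y ∈ p'.Y := Or.inr rfl
  by_cases hω : ∀ n, ∀ F : Finset Z, (F : Set Z) ⊆ grp p'.Y p'.ψ → ∃ k, (F : Set Z) ⊆ U n k
  · obtain ⟨q, hq1, hq2, f, hf⟩ := decide_good p' U hU hω
    exact ⟨q, hq1.trans hp', ⟨y, hq1.sub hyp', hy2⟩, Or.inr ⟨f, hf⟩⟩
  · push Not at hω
    obtain ⟨n, F, hF, hk⟩ := hω
    -- a finite set of new points generating F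
    have : ∀ x : Z, ∃ S : Finset C, x ∈ F → (∀ z ∈ S, ∃ i, z ∈ Set.range (p'.ψ i).f) ∧
        x ∈ AddSubgroup.closure (ι '' (p'.Y ∪ (S : Set C))) := by
      intro x
      by_cases hx : x ∈ F
      · obtain ⟨c, hc, a, rfl⟩ := grp_repr (hF hx)
        refine ⟨a.support.image fun s => (p'.ψ s.1).f s.2, fun _ => ⟨?_, ?_⟩⟩
        · intro z hz
          obtain ⟨s, _, rfl⟩ := Finset.mem_image.mp hz
          exact ⟨s.1, s.2, rfl⟩
        · refine AddSubgroup.add_mem _ ?_ (AddSubgroup.sum_mem _ fun s hs =>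
            AddSubgroup.zsmul_mem _ (AddSubgroup.subset_closure ?_) _)
          · exact AddSubgroup.closure_mono (Set.image_mono Set.subset_union_left) hc
          · refine ⟨_, Or.inr ?_, rfl⟩
            rw [Finset.mem_coe]
            exact Finset.mem_image.mpr ⟨s, hs, rfl⟩
      · exact ⟨∅, fun h => absurd h hx⟩
    choose S hS using this
    let SS : Set C := ((F.biUnion S : Finset C) : Set C)
    have hSS : SS.Countable := Finset.countable_toSet _
    refine ⟨addPts p' SS hSS, (addPts_le p' SS hSS ?_).trans hp', ⟨y, Or.inl hyp', hy2⟩,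
      Or.inl ⟨n, F, ?_, hk⟩⟩
    · intro x hx
      obtain ⟨z, hz, hxz⟩ := Finset.mem_biUnion.mp (Finset.mem_coe.mp hx)
      exact (hS z hz).1 x hxz
    · intro x hx
      refine AddSubgroup.closure_mono (Set.image_mono ?_) (hS x hx).2
      refine Set.union_subset_union_right _ ?_
      intro z hz
      exact Finset.mem_coe.mpr (Finset.mem_biUnion.mpr ⟨x, hx, hz⟩)

/-- The tasks. -/
abbrev Task : Type := (ℕ → ℕ → {s : Set Z // MeasurableSet s}) × (ℕ → C)

theorem mk_borel : #{s : Set Z // MeasurableSet s} ≤ 𝔠 := by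
  obtain ⟨b, hb, hb'⟩ := (inferInstance : MeasurableSpace.CountablyGenerated Z).isCountablyGenerated
  have h1 : #b ≤ 𝔠 := (le_aleph0_iff_set_countable.mpr hb).trans aleph0_le_continuum
  have h2 := MeasurableSpace.cardinal_measurableSet_le_continuum h1
  rw [← hb'] at h2
  exact h2

theorem mk_task : #Task ≤ 𝔠 := by
  have h1 : #(ℕ → ℕ → {s : Set Z // MeasurableSet s}) ≤ 𝔠 := by
    simp only [mk_pi, prod_const, lift_id, mk_nat]
    calc (#{s : Set Z // MeasurableSet s} ^ ℵ₀) ^ ℵ₀ ≤ (𝔠 ^ ℵ₀) ^ ℵ₀ :=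
          Cardinal.power_le_power_right (Cardinal.power_le_power_right mk_borel)
      _ = 𝔠 := by rw [continuum_power_aleph0, continuum_power_aleph0]
  have h2 : #(ℕ → C) ≤ 𝔠 := by
    simp only [mk_pi, prod_const, lift_id, mk_nat, mk_bool, two_power_aleph0,
      continuum_power_aleph0, le_refl]
  calc #Task = #(ℕ → ℕ → {s : Set Z // MeasurableSet s}) * #(ℕ → C) := by simp [Cardinal.mk_prod]
    _ ≤ 𝔠 * 𝔠 := mul_le_mul' h1 h2
    _ = 𝔠 := continuum_mul_self

theorem main (CH : (𝔠 : Cardinal.{0}) = ℵ₁) : ∃ G : AddSubgroup Z, #G = 𝔠 ∧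
    ∀ U : ℕ → ℕ → Set Z, (∀ n k, MeasurableSet (U n k)) →
      (∀ n, ∀ F : Finset Z, (F : Set Z) ⊆ G → ∃ k, (F : Set Z) ⊆ U n k) →
      ∃ f : ℕ → ℕ, ∀ x ∈ G, ∀ᶠ n in atTop, x ∈ U n (f n) := by
  classical
  obtain ⟨r, wo, hr⟩ := Cardinal.exists_ord_eq Task
  have hcount : ∀ i : Task, {j | r j i}.Countable := by
    intro i
    rw [← le_aleph0_iff_set_countable, ← lt_aleph_one_iff, ← CH]
    exact lt_of_lt_of_le (Cardinal.card_typein_lt i hr) mk_task
  let D : Task → Cond → Prop := fun t q => (∃ y ∈ q.Y, y ∉ Set.range t.2) ∧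
      ((∃ n, ∃ F : Finset Z, (F : Set Z) ⊆ AddSubgroup.closure (ι '' q.Y) ∧
          ∀ k, ¬ (F : Set Z) ⊆ (t.1 n k).1) ∨
        ∃ f : ℕ → ℕ, ∀ x ∈ grp q.Y q.ψ, ∀ᶠ n in atTop, x ∈ (t.1 n (f n)).1)
  have hD : ∀ t p, ∃ q, Le q p ∧ D t q := by
    intro t p
    exact dense_step (fun n k => (t.1 n k).1) (fun n k => (t.1 n k).2) t.2 p
  have : Nonempty Cond := ⟨⟨fun _ => Emb.id, ∅, Set.countable_empty⟩⟩
  obtain ⟨g, hg1, hg2⟩ := generic Le Le.refl (fun _ _ _ h h' => h.trans h')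
    (fun p h => lower_bound h) r hcount D hD
  let X : Set C := ⋃ t, (g t).Y
  let G : AddSubgroup Z := AddSubgroup.closure (ι '' X)
  let t0 : ℕ → ℕ → {s : Set Z // MeasurableSet s} := fun _ _ => ⟨∅, MeasurableSet.empty⟩
  refine ⟨G, le_antisymm ?_ ?_, ?_⟩
  · calc #G ≤ #Z := mk_subtype_le _
      _ = 𝔠 := by simp [Z]
  · rw [CH]
    have hX : ¬ X.Countable := by
      intro hXc
      have hne : X.Nonempty := by
        obtain ⟨y, hy, _⟩ := (hg1 (t0, fun _ _ => false)).1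
        exact ⟨y, Set.mem_iUnion.mpr ⟨_, hy⟩⟩
      obtain ⟨e, he⟩ := hXc.exists_eq_range hne
      obtain ⟨y, hy, hy'⟩ := (hg1 (t0, e)).1
      exact hy' (he ▸ Set.mem_iUnion.mpr ⟨_, hy⟩)
    have h1 : ¬ ((G : Set Z)).Countable := by
      intro hG
      apply hX
      have : (ι '' X).Countable := hG.mono AddSubgroup.subset_closure
      exact Set.countable_of_injective_of_countable_image ι_inj.injOn this
    rw [← le_aleph0_iff_set_countable, ← lt_aleph_one_iff, not_lt] at h1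
    exact h1
  · intro U hU hω
    let t : Task := (fun n k => ⟨U n k, hU n k⟩, fun _ _ => false)
    have hYG : ∀ s, AddSubgroup.closure (ι '' (g s).Y) ≤ G := fun s =>
      AddSubgroup.closure_mono (Set.image_mono (Set.subset_iUnion (fun t => (g t).Y) s))
    rcases (hg1 t).2 with ⟨n, F, hF, hk⟩ | ⟨f, hf⟩
    · obtain ⟨k, hk'⟩ := hω n F (hF.trans (hYG t))
      exact absurd hk' (hk k)
    · refine ⟨f, fun x hx => hf x ?_⟩
      have : G ≤ grp (g t).Y (g t).ψ := by
        rw [AddSubgroup.closure_le]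
        rintro _ ⟨y, hy, rfl⟩
        obtain ⟨s, hs⟩ := Set.mem_iUnion.mp hy
        rcases trichotomous_of r s t with h | h | h
        · exact mem_grp_of_mem ((hg2 s t h).sub hs)
        · subst h; exact mem_grp_of_mem hs
        · rcases (hg2 t s h).new y hs with h' | ⟨i, z, h'⟩
          · exact mem_grp_of_mem h'
          · rw [← h']; exact mem_grp_of_range i z
      exact this hx

end Pool.Agent.V11258.BG
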