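import Pool.Agent.V11258.BG.Emb

namespace Pool.Agent.V11258.BG

open Emb Topology Filter

theorem step_aux {K : Type} [Finite K] (O : Set (K → C)) (hO : IsOpen O) (hD : Dense O) (j : ℕ)
    (T : Set (K → Fin j → Bool)) (hT : T.Finite) :
    ∃ κ : K → (Fin j → Bool) → Emb, (∀ a σ, IsOpenMap (κ a σ).f) ∧
      ∀ s ∈ T, ∀ y : K → C, (fun a => cat j (s a) ((κ a (s a)).f (y a))) ∈ O := by
  classical
  induction T, hT using Set.Finite.induction_on with
  | empty =>
    exact ⟨fun _ _ => Emb.id, fun _ _ => by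
      have : (Emb.id).f = fun x => x := rfl
      rw [this]; exact IsOpenMap.id, fun s hs => absurd hs (Set.notMem_empty s)⟩
  | @insert s T hs hT ih =>
    obtain ⟨κ, hκ, hT'⟩ := ih
    let g : K → Emb := fun a => (catE j (s a)).comp (κ a (s a))
    have hg : IsOpenMap (pm g) := isOpenMap_pm g fun a =>
      isOpenMap_comp (isOpenMap_catE j (s a)) (hκ a (s a))
    have hpre : IsOpen (pm g ⁻¹' O) := hO.preimage (continuous_pm g)
    have hd : Dense (pm g ⁻¹' O) := hD.preimage hg
    obtain ⟨y0, hy0⟩ := hd.nonempty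
    obtain ⟨M, hM⟩ := exists_agr_subset_pi hpre hy0
    let κ' : K → (Fin j → Bool) → Emb := fun a σ =>
      if σ = s a then (κ a σ).comp (catE M (res M (y0 a))) else κ a σ
    have hκ' : ∀ a σ, ∃ e : Emb, IsOpenMap e.f ∧ κ' a σ = (κ a σ).comp e := by
      intro a σ
      by_cases h : σ = s a
      · refine ⟨catE M (res M (y0 a)), isOpenMap_catE _ _, ?_⟩
        simp only [κ', h, if_true]
      · refine ⟨Emb.id, ?_, ?_⟩
        · have : (Emb.id).f = fun x => x := rfl
          rw [this]; exact IsOpenMap.id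
        · simp only [κ', h, if_false]; rfl
    refine ⟨κ', fun a σ => ?_, ?_⟩
    · obtain ⟨e, he, h⟩ := hκ' a σ
      rw [h]; exact isOpenMap_comp (hκ a σ) he
    · intro s' hs' y
      rcases Set.mem_insert_iff.mp hs' with rfl | h
      · have h1 : (fun a => (catE M (res M (y0 a))).f (y a)) ∈ pm g ⁻¹' O := by
          apply hM
          intro a i hi
          show y0 a i = cat M (res M (y0 a)) (y a) i
          simp [cat, hi, res]
        have h2 : (fun a => cat j (s' a) ((κ' a (s' a)).f (y a))) =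
            pm g (fun a => (catE M (res M (y0 a))).f (y a)) := by
          funext a
          simp only [κ', if_true]
          rfl
        rw [h2]; exact h1
      · choose e he he' using hκ'
        have h2 : (fun a => cat j (s' a) ((κ' a (s' a)).f (y a))) =
            (fun a => cat j (s' a) ((κ a (s' a)).f ((e a (s' a)).f (y a)))) := by
          funext a
          rw [he' a (s' a)]; rfl
        rw [h2]
        exact hT' s' h _

theorem step {K : Type} [Finite K] (O : Set (K → C)) (hO : IsOpen O) (hD : Dense O) (j : ℕ) :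
    ∃ ρ : K → Emb, (∀ a, Near j (ρ a)) ∧ (∀ a, IsOpenMap (ρ a).f) ∧ ∀ z, pm ρ z ∈ O := by
  obtain ⟨κ, hκ, h⟩ := step_aux O hO hD j Set.univ Set.finite_univ
  refine ⟨fun a => node j (κ a), fun a => near_node j (κ a), fun a => isOpenMap_node j _ (hκ a), ?_⟩
  intro z
  exact h (fun a => res j (z a)) (Set.mem_univ _) (fun a => sh j (z a))

/-- the current product of shrinkings -/
structure St (K : Type) where
  /-- the maps -/
  ζ : K → Emb
  op : ∀ a, IsOpenMap (ζ a).f

theorem step' {K : Type} [Finite K] (O : ℕ → Set (K → C)) (hO : ∀ j, IsOpen (O j))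
    (hD : ∀ j, Dense (O j)) (j : ℕ) (S : St K) :
    ∃ ρ : K → Emb, (∀ a, Near j (ρ a)) ∧ (∀ a, IsOpenMap (ρ a).f) ∧ ∀ z, pm S.ζ (pm ρ z) ∈ O j := by
  have h1 : IsOpen (pm S.ζ ⁻¹' O j) := (hO j).preimage (continuous_pm _)
  have h2 : Dense (pm S.ζ ⁻¹' O j) := (hD j).preimage (isOpenMap_pm _ S.op)
  exact step _ h1 h2 j

theorem isOpenMap_id_f : IsOpenMap (Emb.id).f := by
  have : (Emb.id).f = fun x => x := rfl
  rw [this]; exact IsOpenMap.id

/-- Mycielski: a residual set in a finite power contains a product of perfect sets. -/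
theorem mycielski {K : Type} [Finite K] (A : Set (K → C)) (hA : A ∈ residual (K → C)) :
    ∃ η : K → Emb, ∀ z, pm η z ∈ A := by
  obtain ⟨S, hSo, hSd, hSc, hS⟩ := mem_residual_iff.mp hA
  -- enumerate
  obtain ⟨O, hO⟩ : ∃ O : ℕ → Set (K → C), (∀ j, IsOpen (O j)) ∧ (∀ j, Dense (O j)) ∧
      (⋂ j, O j) ⊆ A := by
    by_cases hne : S.Nonempty
    · obtain ⟨O, rfl⟩ := hSc.exists_eq_range hne
      refine ⟨O, fun j => hSo _ ⟨j, rfl⟩, fun j => hSd _ ⟨j, rfl⟩, ?_⟩
      rwa [Set.sInter_range] at hS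
    · rw [Set.not_nonempty_iff_eq_empty] at hne
      subst hne
      refine ⟨fun _ => Set.univ, fun _ => isOpen_univ, fun _ => dense_univ, ?_⟩
      simpa using hS
  obtain ⟨hOo, hOd, hOA⟩ := hO
  choose ρ h1 h2 h3 using step' O hOo hOd
  -- states
  let st : ℕ → St K := fun n => Nat.rec ⟨fun _ => Emb.id, fun _ => isOpenMap_id_f⟩
    (fun j S => ⟨fun a => (S.ζ a).comp (ρ j S a), fun a => isOpenMap_comp (S.op a) (h2 j S a)⟩) n
  let R : K → ℕ → Emb := fun a j => ρ j (st j) a
  have hR : ∀ a j, Near j (R a j) := fun a j => h1 j (st j) a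
  have hst : ∀ n a x, ((st n).ζ a).f x = (pr (R a) 0 n).f x := by
    intro n
    induction n with
    | zero => intro a x; rfl
    | succ n ih =>
      intro a x
      rw [pr_succ', ← ih, Nat.zero_add]
      rfl
  refine ⟨fun a => tl (R a) (hR a) 0, fun z => hOA ?_⟩
  rw [Set.mem_iInter]
  intro j
  have : pm (fun a => tl (R a) (hR a) 0) z =
      pm (st j).ζ (pm (ρ j (st j)) (fun a => (tl (R a) (hR a) (j+1)).f (z a))) := by
    funext a
    show (tl (R a) (hR a) 0).f (z a) = ((st j).ζ a).f ((R a j).f ((tl (R a) (hR a) (j+1)).f (z a)))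
    rw [tl_pr (R a) (hR a) 0 j, hst, tl_eq, Nat.zero_add]
  rw [this]
  exact h3 j (st j) _

/-- One of countably many Borel sets covering a finite power contains a product of perfect sets. -/
theorem cover_step {K : Type} [Finite K] (B : ℕ → Set (K → C))
    (hB : ∀ k, BaireMeasurableSet (B k)) (hc : ∀ z, ∃ k, z ∈ B k) :
    ∃ k, ∃ η : K → Emb, ∀ z, pm η z ∈ B k := by
  choose V hV hBV using fun k => (hB k).residualEq_isOpen
  have : ∃ k, (V k).Nonempty := by
    by_contra hcon
    push Not at hcon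
    have h1 : ∀ k, (B k)ᶜ ∈ residual (K → C) := by
      intro k
      have := hBV k
      rw [hcon k] at this
      refine Filter.mem_of_superset this ?_
      intro x hx hxB
      have h2 : (x ∈ B k) = (x ∈ (∅ : Set (K → C))) := hx
      rw [h2] at hxB
      exact hxB
    have h2 : (⋂ k, (B k)ᶜ) ∈ residual (K → C) := countable_iInter_mem.mpr h1
    obtain ⟨x, hx⟩ := (dense_of_mem_residual h2).nonempty
    obtain ⟨k, hk⟩ := hc x
    exact (Set.mem_iInter.mp hx k) hk
  obtain ⟨k, y, hy⟩ := this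
  obtain ⟨M, hM⟩ := exists_agr_subset_pi (hV k) hy
  let e : K → Emb := fun a => catE M (res M (y a))
  have he : IsOpenMap (pm e) := isOpenMap_pm e fun a => isOpenMap_catE _ _
  have heV : ∀ z, pm e z ∈ V k := by
    intro z
    apply hM
    intro a i hi
    show y a i = cat M (res M (y a)) (z a) i
    simp [cat, hi, res]
  have hres : (pm e) ⁻¹' {x | (x ∈ B k) = (x ∈ V k)} ∈ residual (K → C) := by
    refine tendsto_residual_of_isOpenMap (continuous_pm e) he ?_
    exact hBV k
  obtain ⟨η, hη⟩ := mycielski _ hres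
  refine ⟨k, fun a => (e a).comp (η a), fun z => ?_⟩
  have h1 : (pm e (pm η z) ∈ B k) = (pm e (pm η z) ∈ V k) := hη z
  have h2 : pm (fun a => (e a).comp (η a)) z = pm e (pm η z) := rfl
  rw [h2, h1]
  exact heV _

end Pool.Agent.V11258.BG
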